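import Pool.Agent.X265.PG.Basic

/-!
# Commutator laws on a solubilizer do not bound the nilpotency class

In `G = PGL(2,7)` (acting on the eight points of the projective line) let `x` be an element
of order eight.  Its solubilizer is the dihedral group of order sixteen, which has
nilpotency class three, while `G` is not nilpotent.
-/

namespace Pool.Agent.Results.MP_7555fa_al.SolubilizerLaw

/-- the commutator `[a,b] = a⁻¹ b⁻¹ a b` -/
def comm {G : Type} [Group G] (a b : G) : G := a⁻¹ * b⁻¹ * a * b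

/-- the left-normed commutator `[a, b₁, …, bₙ] = [[…[[a, b₁], b₂], …], bₙ]`, for `l = [b₁, …, bₙ]` -/
def leftNormed {G : Type} [Group G] (a : G) (l : List G) : G := l.foldl comm a

/-- the solubilizer of `x` -/
def Sol {G : Type} [Group G] (x : G) : Set G :=
  {y | Group.IsSolvable (Subgroup.closure {x, y})}

/-- the subgroup `γ_k(G)` generated by all left-normed commutators of weight `k` -/
def gam (G : Type) [Group G] (k : ℕ) : Subgroup G :=
  Subgroup.closure {g | ∃ (a : G) (l : List G), l.length + 1 = k ∧ g = leftNormed a l}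

open Pool.Agent.X265.PG
open scoped commutatorElement

/-- the elements as elements of the group -/
def xG : G := ⟨X, Subgroup.subset_closure (Or.inl rfl)⟩
/-- translation -/
def tG : G := ⟨T, Subgroup.subset_closure (Or.inr (Or.inl rfl))⟩
/-- dilation -/
def uG : G := ⟨U, Subgroup.subset_closure (Or.inr (Or.inr rfl))⟩

lemma pow_two_pow : ∀ i : Fin 8, X ^ (i : ℕ) ≠ 1 → ∃ r : Fin 8, (X ^ (i : ℕ)) ^ (r : ℕ) = X ^ 4 := by
  decide +kernel

lemma sq_one : ∀ i : Fin 8, (X ^ (i : ℕ)) ^ 2 = 1 → X ^ (i : ℕ) ≠ 1 → X ^ (i : ℕ) = X ^ 4 := by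
  decide +kernel

lemma X4_sq : (X ^ 4) ^ 2 = 1 := by decide +kernel
lemma X4_ne : X ^ 4 ≠ 1 := by decide +kernel
lemma X_ne : X ≠ 1 := by decide +kernel

lemma X_inv_pow (m : Fin 8) : X ^ (8 - (m : ℕ)) = (X ^ (m : ℕ))⁻¹ := by
  apply eq_inv_of_mul_eq_one_left
  rw [← pow_add, Nat.sub_add_cancel (by omega), X8]

/-- the elements of the dihedral group -/
def dd (e : Bool) (m : Fin 8) : Equiv.Perm (Fin 8) := X ^ (m : ℕ) * (if e then S else 1)

lemma sol_sub {y : G} (hy : y ∈ Sol xG) : ∃ e m, (y : Equiv.Perm (Fin 8)) = dd e m := by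
  have hs : Group.IsSolvable (Subgroup.closure {xG, y}) := hy
  set K : Subgroup G := Subgroup.closure {xG, y} with hK
  have hxK : xG ∈ K := Subgroup.subset_closure (Or.inl rfl)
  have hyK : y ∈ K := Subgroup.subset_closure (Or.inr rfl)
  classical
  obtain ⟨n₀, hn₀⟩ := (Group.isSolvable_def (G := K)).mp hs
  have hex : ∃ n, derivedSeries K n = ⊥ := ⟨n₀, hn₀⟩
  obtain ⟨n, hn, hmin⟩ : ∃ n, derivedSeries K n = ⊥ ∧ ∀ m < n, derivedSeries K m ≠ ⊥ :=
    ⟨Nat.find hex, Nat.find_spec hex, fun m hm => Nat.find_min hex hm⟩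
  have hn0 : n ≠ 0 := by
    rintro rfl
    rw [derivedSeries_zero] at hn
    have h1 : (⟨xG, hxK⟩ : K) ∈ (⊤ : Subgroup K) := trivial
    rw [hn, Subgroup.mem_bot] at h1
    have h2 : xG = 1 := congrArg Subtype.val h1
    exact X_ne (congrArg Subtype.val h2)
  obtain ⟨m, rfl⟩ : ∃ m, n = m + 1 := ⟨n - 1, by omega⟩
  set A := derivedSeries K m with hA
  have hAne : A ≠ ⊥ := hmin m (by omega)
  have hAcomm : ∀ a ∈ A, ∀ b ∈ A, a * b = b * a := by
    intro a ha b hb
    have h1 : ⁅a, b⁆ ∈ derivedSeries K (m + 1) := Subgroup.commutator_mem_commutator ha hb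
    rw [hn, Subgroup.mem_bot, commutatorElement_eq_one_iff_mul_comm] at h1
    exact h1
  have hAnorm : A.Normal := inferInstance
  have hform : ∀ a ∈ A, ∃ i : Fin 8, ((a : G) : Equiv.Perm (Fin 8)) = X ^ (i : ℕ) := by
    intro a ha
    obtain ⟨j, k, i, hjk⟩ := NF_of_mem (a : G).2
    have h1 := F1 j k i (by
      intro r
      rw [← hjk, X_inv_pow]
      have h2 := hAnorm.conj_mem a ha ((⟨xG, hxK⟩ : K) ^ (r : ℕ))
      have h3 := hAcomm a ha _ h2
      exact congrArg (fun z : K => ((z : G) : Equiv.Perm (Fin 8))) h3)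
    refine ⟨i, ?_⟩
    rw [hjk, h1.1, h1.2]
    simp [nf]
  obtain ⟨a, ha, ha1⟩ : ∃ a : K, a ∈ A ∧ a ≠ 1 := by
    by_contra hcon
    push Not at hcon
    exact hAne ((Subgroup.eq_bot_iff_forall A).mpr hcon)
  have hval_ne : ∀ b : K, b ≠ 1 → ((b : G) : Equiv.Perm (Fin 8)) ≠ 1 := by
    intro b hb h
    exact hb (Subtype.ext (Subtype.ext h))
  obtain ⟨i, hi⟩ := hform a ha
  obtain ⟨r, hr⟩ := pow_two_pow i (by rw [← hi]; exact hval_ne _ ha1)
  set z : K := (a : K) ^ (r : ℕ) with hz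
  have hzA : z ∈ A := A.pow_mem ha _
  have hzval : ((z : G) : Equiv.Perm (Fin 8)) = X ^ 4 := by
    rw [← hr, ← hi]; rfl
  -- conjugates of `z`
  have hconj : (y : Equiv.Perm (Fin 8)) * X ^ 4 * (y : Equiv.Perm (Fin 8))⁻¹ = X ^ 4 := by
    have h1 := hAnorm.conj_mem z hzA ⟨y, hyK⟩
    obtain ⟨s, hs'⟩ := hform _ h1
    have h2 : (y : Equiv.Perm (Fin 8)) * X ^ 4 * (y : Equiv.Perm (Fin 8))⁻¹ = X ^ (s : ℕ) := by
      rw [← hs', ← hzval]; rfl
    rw [h2]
    apply sq_one
    · rw [← h2, sq]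
      calc (y : Equiv.Perm (Fin 8)) * X ^ 4 * (y : Equiv.Perm (Fin 8))⁻¹ *
          ((y : Equiv.Perm (Fin 8)) * X ^ 4 * (y : Equiv.Perm (Fin 8))⁻¹) =
          (y : Equiv.Perm (Fin 8)) * (X ^ 4) ^ 2 * (y : Equiv.Perm (Fin 8))⁻¹ := by group
        _ = 1 := by rw [X4_sq]; group
    · rw [← h2]
      intro h
      apply X4_ne
      have := congrArg (fun w => (y : Equiv.Perm (Fin 8))⁻¹ * w * (y : Equiv.Perm (Fin 8))) h
      simpa [mul_assoc] using this
  obtain ⟨j, k, i, hjk⟩ := NF_of_mem y.2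
  have h5 : nf j k i * X ^ 4 = X ^ 4 * nf j k i := by
    rw [← hjk]
    exact mul_inv_eq_iff_eq_mul.mp hconj
  rcases F2 j k i h5 with ⟨m, hm⟩ | ⟨m, hm⟩
  · exact ⟨false, m, by rw [hjk, hm]; simp [dd]⟩
  · exact ⟨true, m, by rw [hjk, hm]; simp [dd]⟩

lemma L1 : ∀ (e : Bool) (m : Fin 8) (e' : Bool) (m' : Fin 8), ∃ r : Fin 4,
    comm (dd e m) (dd e' m') = X ^ (2 * (r : ℕ)) := by
  unfold comm
  decide +kernel

lemma L2 : ∀ (r : Fin 4) (e : Bool) (m : Fin 8), ∃ s : Fin 2,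
    comm (X ^ (2 * (r : ℕ))) (dd e m) = X ^ (4 * (s : ℕ)) := by
  unfold comm
  decide +kernel

lemma L3 : ∀ (s : Fin 2) (e : Bool) (m : Fin 8), comm (X ^ (4 * (s : ℕ))) (dd e m) = 1 := by
  unfold comm
  decide +kernel

lemma comm_one (b : G) : comm 1 b = 1 := by simp [comm]

lemma foldl_one (l : List G) : l.foldl comm 1 = 1 := by
  induction l with
  | nil => rfl
  | cons b l ih => rw [List.foldl_cons, comm_one, ih]

lemma val_comm (a b : G) : ((comm a b : G) : Equiv.Perm (Fin 8)) =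
    comm (a : Equiv.Perm (Fin 8)) (b : Equiv.Perm (Fin 8)) := rfl

lemma law {a b c d : G} (ha : a ∈ Sol xG) (hb : b ∈ Sol xG) (hc : c ∈ Sol xG)
    (hd : d ∈ Sol xG) : comm (comm (comm a b) c) d = 1 := by
  obtain ⟨e1, m1, h1⟩ := sol_sub ha
  obtain ⟨e2, m2, h2⟩ := sol_sub hb
  obtain ⟨e3, m3, h3⟩ := sol_sub hc
  obtain ⟨e4, m4, h4⟩ := sol_sub hd
  apply Subtype.ext
  rw [val_comm, val_comm, val_comm, h1, h2, h3, h4]
  obtain ⟨r, hr⟩ := L1 e1 m1 e2 m2
  rw [hr]
  obtain ⟨s, hs⟩ := L2 r e3 m3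
  rw [hs, L3]
  rfl

lemma UTU (n : ℕ) : U⁻¹ * T ^ n * U = T ^ (5 * n) := by
  have h := UT_pow (5 * n)
  have h1 : T ^ (3 * (5 * n)) = T ^ n := by
    have : 3 * (5 * n) = 7 * (2 * n) + n := by ring
    rw [this, pow_add, pow_mul, T7, one_pow, one_mul]
  rw [h1] at h
  rw [mul_assoc, ← h, inv_mul_cancel_left]

lemma comm_T (n : ℕ) : comm (T ^ n) U = T ^ (4 * n) := by
  have h : comm (T ^ n) U = (T ^ n)⁻¹ * (U⁻¹ * T ^ n * U) := by
    unfold comm; group
  rw [h, UTU, inv_mul_eq_iff_eq_mul, ← pow_add]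
  congr 1
  ring

lemma iter_T (k n : ℕ) : ((((List.replicate k uG).foldl comm (tG ^ n) : G)) :
    Equiv.Perm (Fin 8)) = T ^ (4 ^ k * n) := by
  induction k generalizing n with
  | zero => simp [tG]
  | succ k ih =>
    rw [List.replicate_succ, List.foldl_cons]
    have h : comm (tG ^ n) uG = tG ^ (4 * n) := by
      apply Subtype.ext
      exact comm_T n
    rw [h, ih]
    congr 1
    ring

lemma T_pow_ne (k : ℕ) : T ^ (4 ^ k) ≠ 1 := by
  intro h
  have h7 : Fact (Nat.Prime 7) := ⟨by norm_num⟩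
  have hne : T ≠ 1 := by decide +kernel
  have hT : orderOf T = 7 := orderOf_eq_prime T7 hne
  have h1 := orderOf_dvd_of_pow_eq_one h
  rw [hT] at h1
  have := Nat.Prime.dvd_of_dvd_pow (by norm_num) h1
  omega

/-- There are a finite group `G` (namely `PGL(2,7)`) and `x ∈ G` such that, for every
`k ≥ 4`, all left-normed commutators of weight `k` in elements of the solubilizer of `x`
are trivial, but `γ_k(G) ≠ 1`. -/
theorem result : ∃ (G : Type) (_ : Group G) (_ : Finite G) (x : G), ∀ k : ℕ, 4 ≤ k →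
    (∀ (a : G) (l : List G), a ∈ Sol x → (∀ b ∈ l, b ∈ Sol x) → l.length + 1 = k →
      leftNormed a l = 1) ∧ gam G k ≠ ⊥ := by
  refine ⟨G, inferInstance, inferInstance, xG, fun k hk => ⟨?_, ?_⟩⟩
  · intro a l ha hl hlen
    match l, hl, hlen with
    | [], _, h => simp at h; omega
    | [b], _, h => simp at h; omega
    | [b, c], _, h => simp at h; omega
    | b :: c :: d :: l, hl, _ =>
      have hb := hl b (by simp)
      have hc := hl c (by simp)
      have hd := hl d (by simp)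
      unfold leftNormed
      rw [List.foldl_cons, List.foldl_cons, List.foldl_cons, law ha hb hc hd, foldl_one]
  · intro h
    have h1 : leftNormed tG (List.replicate (k - 1) uG) ∈ gam G k :=
      Subgroup.subset_closure ⟨tG, List.replicate (k - 1) uG, by
        rw [List.length_replicate]; omega, rfl⟩
    rw [h, Subgroup.mem_bot] at h1
    have h2 := iter_T (k - 1) 1
    rw [pow_one, mul_one] at h2
    have h3 : ((leftNormed tG (List.replicate (k - 1) uG) : G) : Equiv.Perm (Fin 8)) = 1 := by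
      rw [h1]; rfl
    exact T_pow_ne (k - 1) (h2 ▸ h3)

end Pool.Agent.Results.MP_7555fa_al.SolubilizerLaw
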